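import Pool.Agent.Helper11.TZ.Def

/-! The time and the other coordinates to a level. -/

set_option autoImplicit false

namespace Pool.Agent.Helper11.UA

open Finset Filter Topology Matrix MvPolynomial Pool.Agent.Helper69.RK Pool.Agent.Helper31.EC Pool.Agent.Helper40.EL
open Pool.Agent.Helper89.LX Pool.Agent.Helper3.LF Pool.Agent.Helper3.PR Pool.Agent.Helper48.NS Pool.Agent.Helper42.NS
open Pool.Agent.Helper31.EC.Sp Pool.Agent.Helper11.TZ

noncomputable section

/-- the time and the coordinates except `P i0`, to the level `r` -/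
def othr {U : Sp} {m : ℕ} (s : Sys U m) (i0 : Fin m) (r : ℝ) : U.L :=
  s.T ⊔ ((Finset.univ : Finset (Fin m)).filter (fun j => j ≠ i0)).sup fun j => TR.dg (TR.cor s.P j) r

variable {S : Sp} {m D : ℕ} {s : Sys S m} {i0 : Fin m}

theorem othr_one {U : Sp} (s : Sys U m) (i0 : Fin m) : othr s i0 1 = oth s i0 := rfl

theorem map_finsup {T U : Sp} (p : Pj T U) {ι : Type*} (A : Finset ι) (f : ι → U.L) :
    p.map (A.sup f) = A.sup fun i => p.map (f i) := by
  classical
  induction A using Finset.induction_on with
  | empty => rw [Finset.sup_empty, Finset.sup_empty, p.map_bot]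
  | insert a A ha ih => rw [Finset.sup_insert, Finset.sup_insert, p.map_sup, ih]

theorem map_othr {T U : Sp} (p : Pj T U) (s : Sys U m) (i0 : Fin m) (r : ℝ) :
    p.map (othr s i0 r) = othr (s.pull p) i0 r := by
  unfold othr
  rw [p.map_sup, map_finsup]
  congr 1
  · unfold Sys.T
    rw [p.map_dg]
    rfl
  · congr 1
    funext j
    exact (p.tr_dg (TR.cor s.P j) r).symm

end

end Pool.Agent.Helper11.UA
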