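import Pool.Agent.Helper11.UA.Nc
import Pool.Agent.Helper11.UA.Oth
import Pool.Agent.Helper30.UNS.Fin

/-! UNSATURATED TOP COORDINATE in case A, in the box: field `un` of the corner, on all events of all extensions of the
space over the label of the base window. -/

set_option autoImplicit false

namespace Pool.Agent.Helper11.UA

open Finset Filter Topology Pool.Agent.Helper69.RK Pool.Agent.Helper31.EC Pool.Agent.Helper31.EC.Sp
open Pool.Agent.Helper40.EL Pool.Agent.Helper52.KP Pool.Agent.Helper42.NS Pool.Agent.Helper91.GR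
open Pool.Agent.Helper80.HCI Pool.Agent.Helper60.CS Pool.Agent.Helper98.FR Pool.Agent.Helper30.UNS
open Pool.Agent.Helper11.TZ

noncomputable section

variable {S : Sp}

/-- THE DATA OF LEVEL 1 near the window `c` (case A), on all events of all extensions: depths `lam` of the slab of
`R = P_1` over `(t, P_0)`, thickness `eta` (hull of `z = P_2`), fullness of `(t, P_0, P_1)` -/
structure LevA (s : Sys S 3) (c d : ℝ) (lam eta : ℝ → ℝ) : Prop where
  rp : Pool.Agent.Helper52.SL.RobP s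
  hR : ∀ (T : Sp) (p : Pj T S) (E : ∀ k, (T.F k).Ω → Prop) (hE : 0 < ul (T.pr E)) (c' : ℝ), |c' - c| < d →
    HH (SJ 1 {0, 1}) (s.im p E hE) c' (lam c')
  hz : ∀ (T : Sp) (p : Pj T S) (E : ∀ k, (T.F k).Ω → Prop) (hE : 0 < ul (T.pr E)) (c' : ℝ), |c' - c| < d →
    ∀ l : Lab (Sp.im p E), IsKap (s.im p E hE) c' l →
      up1 l (TR.dg (TR.cor (s.im p E hE).P 2) (eta c')) ≤ up1 l (othr (s.im p E hE) 2 (eta c'))
  full : ∀ (T : Sp) (p : Pj T S) (E : ∀ k, (T.F k).Ω → Prop) (hE : 0 < ul (T.pr E)) (c' : ℝ), |c' - c| < d →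
    ∀ l : Lab (Sp.im p E), IsKap (s.im p E hE) c' l → (1 - c') + (1 - lam c') ≤
      h (up1 l (TR.dg (TR.cor (s.im p E hE).P 0) 1 ⊔ TR.dg (TR.cor (s.im p E hE).P 1) 1)) (up1 l (s.im p E hE).T)
  ql : ∀ c' : ℝ, |c' - c| < d → c' ≤ lam c' ∧ lam c' ≤ 1

theorem M_C3 (s : Sys S 3) (r : ℝ) : C3.M s r = TR.dg (TR.cor s.P 0) r ⊔ TR.dg (TR.cor s.P 1) r := by
  unfold Cd.M
  rw [fl_dg]
  rfl

theorem othr_C3 (s : Sys S 3) (r : ℝ) : othr s 2 r = s.T ⊔ (TR.dg (TR.cor s.P 0) r ⊔ TR.dg (TR.cor s.P 1) r) := by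
  unfold othr
  congr 1
  apply le_antisymm
  · apply Finset.sup_le
    intro j hj
    rw [Finset.mem_filter] at hj
    fin_cases j
    · exact le_sup_left
    · exact le_sup_right
    · exact absurd rfl hj.2
  · refine sup_le ?_ ?_
    · exact Finset.le_sup (f := fun j => TR.dg (TR.cor s.P j) r) (Finset.mem_filter.mpr ⟨Finset.mem_univ _, by decide⟩)
    · exact Finset.le_sup (f := fun j => TR.dg (TR.cor s.P j) r) (Finset.mem_filter.mpr ⟨Finset.mem_univ _, by decide⟩)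

/-- the data of NC at a window -/
theorem WN2_of {s : Sys S 3} {c lam eta : ℝ} (hR : HH (SJ 1 {0, 1}) s c lam)
    (hz : ∀ l : Lab S, IsKap s c l → up1 l (TR.dg (TR.cor s.P 2) eta) ≤ up1 l (othr s 2 eta))
    (hf : ∀ l : Lab S, IsKap s c l → (1 - c) + (1 - lam) ≤
      h (up1 l (TR.dg (TR.cor s.P 0) 1 ⊔ TR.dg (TR.cor s.P 1) 1)) (up1 l s.T)) : WN2 C3 s c lam eta := by
  obtain ⟨lR, vR, dR, sR⟩ := Sht_of_HH hR
  obtain ⟨κ1, h1⟩ : ∃ κ1 : Lab S, κ1 = fun k => (kap s c k).join (lR k) := ⟨_, rfl⟩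
  have k1 : IsKap s c κ1 := by rw [h1]; exact join_kap (kap_isKap s c) dR
  have d3 : Dom κ1 lR := by rw [h1]; exact Dom.right _ _
  obtain ⟨w, hw⟩ := Sht_dom sR d3
  refine ⟨κ1, w, k1, ?_, ?_, ?_⟩
  · have h2 := hz κ1 k1
    rw [othr_C3, up1_sup] at h2
    rw [M_C3]
    refine h2.trans (le_of_eq (sup_comm _ _))
  · rw [C3_JR]
    exact hw
  · rw [M_C3]
    have := hf κ1 k1
    push_cast
    linarith

theorem LevA.nch {s : Sys S 3} {c d : ℝ} {lam eta : ℝ → ℝ} (H : LevA s c d lam eta) : NcH2 C3 s c d lam eta (s.F 0) where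
  yr := fun T p E hE u hu hu1 => H.rp.F_eq p E hE le_rfl zero_le_one hu hu1
  wn := fun T p E hE c' hc' => WN2_of (H.hR T p E hE c' hc') (H.hz T p E hE c' hc') (H.full T p E hE c' hc')
  ql := H.ql

variable {s : Sys S 3} {c d w w1 y' : ℝ} {lam eta y : ℝ → ℝ}

section bx

variable {q lm et : ℕ → ℝ} {L : ℕ → Lab S} (b : Bx s q lm et L)

theorem oth_bx : oth b.sy 2 = TR.dg b.bd.t 1 ⊔ (TR.dg b.bd.y 1 ⊔ TR.dg b.bd.R 1) := by
  rw [← othr_one, othr_C3]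
  congr 1
  exact (T_eq b.sy).symm

end bx

/-- UNSATURATED TOP COORDINATE IN THE BOX: all digits of `M = (t, y, R)`, the digits of `z` near the level `eta c` -/
theorem bx_un2 (H : NcH2 C3 s c d lam eta y) (hd : 0 < d) (hη : HasDerivAt eta w c) (hw : 1 ≤ w)
    (hl : HasDerivAt lam w1 c) (hor : lam c < eta c ∨ (lam c = eta c ∧ w1 = w)) (hy : HasDerivAt y y' (eta c))
    (h0 : 0 < eta c) (h1 : eta c < 1) {A ε : ℝ} (hA : 0 ≤ A) (hε : 0 < ε) :
    ∃ e0 : ℝ, 0 < e0 ∧ ∀ (e : ℝ) (he : 0 < e), e ≤ e0 → ∀ (q lm et : ℕ → ℝ) (L : ℕ → Lab S) (b : Bx s q lm et L)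
      (i0 : ℕ) (W : Sp) (p : Pj W (b.M.sp.chg (b.bd.V i0) e he)) (E : ∀ k, (W.F k).Ω → Prop)
      (hE : 0 < ul (W.pr E)) (u v : ℝ), -A ≤ u → u ≤ v → v ≤ A →
      h (restL E hE (p.map (chgL (b.bd.V i0) e he (TR.dg (TR.cor b.sy.P 2) (eta c + e * v)))))
        (restL E hE (p.map (chgL (b.bd.V i0) e he (TR.dg (TR.cor b.sy.P 2) (eta c + e * u) ⊔ oth b.sy 2)))) ≤
        (y' - 2) * (v - u) + ε := by
  obtain ⟨e1, he1, g1⟩ := uns_sys2 C3 H hd hη hw hl hor hy h0 h1 (A := A) (ε := ε) hA hε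
  refine ⟨e1, he1, fun e he hee q lm et L b i0 W p E hE u v hu huv hv => ?_⟩
  have f1 := g1 e he hee (b.M.lab i0) W p E hE u v hu huv hv
  have e1' : restL E hE (p.map (chgL (b.bd.V i0) e he (TR.dg (TR.cor b.sy.P 2) (eta c + e * v)))) =
      restL E hE (p.map ((b.M.lab i0).upL e he (TR.dg (pc s C3.z.succ) (eta c + v * e)))) := by
    have h2 := map_cor b 2 (eta c + v * e)
    rw [mul_comm e v, ← h2]
    rfl
  have e2' : restL E hE (p.map (chgL (b.bd.V i0) e he (TR.dg (TR.cor b.sy.P 2) (eta c + e * u) ⊔ oth b.sy 2))) =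
      restL E hE (p.map ((b.M.lab i0).upL e he (C3.M s 1 ⊔ (TR.dg (pc s C3.z.succ) (eta c + u * e) ⊔ s.T)))) := by
    have h2 := map_M b (eta c + u * e)
    rw [oth_bx, mul_comm e u, ← sup_assoc (TR.dg b.bd.t 1)]
    show restL E hE (p.map (chgL (b.bd.V i0) e he (TR.dg b.bd.z (eta c + u * e) ⊔
      (TR.dg b.bd.t 1 ⊔ TR.dg b.bd.y 1 ⊔ TR.dg b.bd.R 1)))) = _
    rw [← h2]
    rfl
  rw [e1', e2']
  refine f1.trans (le_of_eq ?_)
  push_cast
  ring

end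

end Pool.Agent.Helper11.UA
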