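import Pool.Agent.Helper11.TZ.T0
import Pool.Agent.Helper11.UA.Oth
import Pool.Agent.Helper11.TZ.T3
import Pool.Agent.Helper35.T4.Fine

/-! HULL: over every maximal label of the window `c` the coordinate `P i0` is known to the level `η(c)` from the time and
the other coordinates to the level `η(c)`. -/

set_option autoImplicit false

namespace Pool.Agent.Helper11.UA

open Finset Filter Topology Matrix MvPolynomial Pool.Agent.Helper69.RK Pool.Agent.Helper31.EC Pool.Agent.Helper40.EL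
open Pool.Agent.Helper89.LX Pool.Agent.Helper3.LF Pool.Agent.Helper3.PR Pool.Agent.Helper48.NS Pool.Agent.Helper42.NS
open Pool.Agent.Helper31.EC.Sp Pool.Agent.Helper60.CS Pool.Agent.Helper47.T4 Pool.Agent.Helper11.TZ

noncomputable section

variable {S : Sp} {m D : ℕ} {s : Sys S m} {i0 : Fin m}

/-- knowledge over a maximal label does not depend on the label -/
theorem kap_le {c : ℝ} {l l' : Lab S} (hl : IsKap s c l) (hl' : IsKap s c l') {X Y : S.L} (h : up1 l X ≤ up1 l Y) :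
    up1 l' X ≤ up1 l' Y := by
  have h1 := hl.H_eq hl' (X ⊔ Y)
  have h2 := hl.H_eq hl' Y
  rw [up1_sup, sup_eq_right.mpr h] at h1
  rw [h2] at h1
  rw [up1_sup] at h1
  have h3 : Pool.Agent.Helper31.EC.h (up1 l' X) (up1 l' Y) = 0 := by
    have h4 := H_chain (up1 l' Y) (up1 l' X)
    rw [sup_comm] at h4
    linarith
  exact h_eq_zero_iff.mp h3

/-- a maximal label with a top polynomial -/
theorem hul_of_top {c η : ℝ} {l : Lab S} (hl : IsKap s c l) {q : ∀ k, (l.sp.F k).Ω → Mon (m + 1) D → ℝ}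
    (hq : Top (s.pull l.pj) l.V D c η (fun _ => Pi.single i0 1) q) (hη : 0 ≤ η) (hη1 : η < 1) (l' : Lab S)
    (hl' : IsKap s c l') : up1 l' (TR.dg (TR.cor s.P i0) η) ≤ up1 l' (othr s i0 η) := by
  refine kap_le hl hl' ?_
  obtain ⟨K1, hK1, hT1⟩ := hq.bd (fun _ => 1) (l.sp.Sub_const zero_le_one)
  have hKt' : Sp.Typ (S := l.sp) (fun k ω => |eval (ptf (s.pull l.pj) k ω) (pol (q k ω))| ≤ K1 k) := by
    refine typ_mono hT1 (Eventually.of_forall fun k ω _ h2 => ?_)
    exact h2 ((s.pull l.pj).t.v k ω 0) (by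
      rw [sub_self, abs_zero, one_mul]
      exact (l.sp.dl_pos c k).le) _ (fun i => by
      show |ptf (s.pull l.pj) k ω i - ptf (s.pull l.pj) k ω i| ≤ _
      rw [sub_self, abs_zero, one_mul]
      exact (l.sp.dl_pos η k).le)
  have h3 := Pool.Agent.Helper35.T4.t4_fine l.sp (s.pull l.pj) l.V c η i0 q hq K1 hK1 hKt' hη1 0 le_rfl
    (by linarith) 1 one_pos
  have e1 : TR.dg (zt (s.pull l.pj) q K1 hK1) 0 = ⊥ :=
    (TR.vec (fun _ : Fin 1 => zt (s.pull l.pj) q K1 hK1)).dg_nonpos le_rfl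
  rw [e1, bot_sup_eq, add_zero] at h3
  have e2 : up1 l (TR.dg (TR.cor s.P i0) η) = chgL (S := l.sp) l.V 1 one_pos (TR.dg (TR.cor (s.pull l.pj).P i0) η) := by
    have h4 := (l.pj.tr_dg (TR.cor s.P i0) η).symm
    show chgL (S := l.sp) l.V 1 one_pos (l.pj.map (TR.dg (TR.cor s.P i0) η)) = _
    rw [h4]
    rfl
  have e3 : up1 l (othr s i0 η) = chgL (S := l.sp) l.V 1 one_pos (othr (s.pull l.pj) i0 η) := by
    show chgL (S := l.sp) l.V 1 one_pos (l.pj.map (othr s i0 η)) = _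
    rw [map_othr]
  rw [e2, e3]
  exact h3

/-- HULL, from the lower bound of the gradient of the canonical form -/
theorem hul (hs : RobH s) {c : ℝ} (h0 : 0 ≤ c) (h1 : c < 1) (hη0 : 0 ≤ eta s D c) (hη : eta s D c < 1)
    {x : ∀ k, FD (S.F k) (Mon (m + 1) D)} (hx : IsCan s D c x)
    (hJ : ∃ K : ℕ → ℝ, S.Sub K ∧ Sp.Typ (S := (lb x).sp) (fun k (ω : (x k).l.T.Ω) =>
      2 ^ (2 * eta s D c * (S.F k).n) ≤ K k * Jf (S.dl 1 k) ((x k).g ω) (ptf s k ((x k).l.p.π ω)) i0 i0))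
    (l' : Lab S) (hl' : IsKap s c l') :
    up1 l' (TR.dg (TR.cor s.P i0) (eta s D c)) ≤ up1 l' (othr s i0 (eta s D c)) := by
  classical
  obtain ⟨q, hq⟩ := exists_top hs h0 h1 hη hx.1 (fun _ => Pi.single i0 1)
    ⟨fun _ => 1, S.Sub_const zero_le_one, Eventually.of_forall fun k i => by
      by_cases hi : i = i0
      · rw [hi, Pi.single_eq_same, abs_one]
      · rw [Pi.single_eq_of_ne hi, abs_zero]
        exact zero_le_one⟩ (by
      obtain ⟨K, hK, hT⟩ := hJ
      refine ⟨K, hK, typ_mono hT (Eventually.of_forall fun k ω _ h2 => ?_)⟩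
      have e1 : (Pi.single i0 1 : Fin m → ℝ) ⬝ᵥ (Jf (S.dl 1 k) ((x k).g ω) (ptf s k ((x k).l.p.π ω)) *ᵥ
          (Pi.single i0 1 : Fin m → ℝ)) = Jf (S.dl 1 k) ((x k).g ω) (ptf s k ((x k).l.p.π ω)) i0 i0 := by
        rw [Matrix.mulVec_single_one, single_dotProduct, one_mul]
        rfl
      rw [e1]
      exact h2)
  have hk : IsKap s c (lb x) := hx.2
  exact hul_of_top hk hq hη0 hη l' hl'

end

end Pool.Agent.Helper11.UA
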