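import Pool.Agent.Helper11.UA.Box
import Pool.Agent.Helper11.UA.Hul
import Pool.Agent.Helper3.H3.Ry
import Pool.Agent.Helper91.GR.Voa
import Pool.Agent.Helper41.DZ.R4
import Pool.Agent.Helper60.CA.Cod

/-! UNSATURATED TOP COORDINATE in case A: the data of level 1 of a selected system, and field `hD` of the corner. -/

set_option autoImplicit false

namespace Pool.Agent.Helper11.UA

open Finset Filter Topology Pool.Agent.Helper69.RK Pool.Agent.Helper31.EC Pool.Agent.Helper31.EC.Sp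
open Pool.Agent.Helper40.EL Pool.Agent.Helper40.NSK Pool.Agent.Helper52.KP Pool.Agent.Helper42.NS
open Pool.Agent.Helper89.LX Pool.Agent.Helper3.LF Pool.Agent.Helper3.PR Pool.Agent.Helper19.S12
open Pool.Agent.Helper91.GR Pool.Agent.Helper98.FR Pool.Agent.Helper60.CS Pool.Agent.Helper60.CA
open Pool.Agent.Helper11.TZ
open Pool.Agent.Helper59.EV (ST lb)

noncomputable section

variable {G : ℕ → Gg 3} {Φ : ℕ → Fnl 3} {D : ℕ} {g : ℝ} {S : Sp} {s : Sys S 3}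

/-- HULL of `z = P_2` for the selected systems -/
theorem hul4 (hs : Sel4 G Φ D g s) (hH : RobH s) (hD : 1 ≤ D) (hst : ST 1 2) (hi : ZDir s D 2) (h1 : c0 s D < 1)
    {c : ℝ} (h0 : 0 ≤ c) (hcc : c ≤ c0 s D) (hη1 : eta s D c < 1) (hcη : c < eta s D c)
    (hl : lamI s 2 (c0 s D) < eta s D c) (l : Lab S) (hk : IsKap s c l) :
    up1 l (TR.dg (TR.cor s.P 2) (eta s D c)) ≤ up1 l (othr s 2 (eta s D c)) := by
  obtain ⟨x, hx⟩ := exists_can s D c
  obtain ⟨K, hK, -, hT⟩ := Pool.Agent.Helper41.DZ.dz4_sub hs hD hst hi h1 h0 hcc (Hf_eta hD c) hcη hl hx.1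
  exact hul hH h0 (hcc.trans_lt h1) (eta_nonneg hD c) hη1 hx ⟨K, hK, hT⟩ l hk

/-- the case distinction of the base -/
theorem hR4 (hs : Sel4 G Φ D g s) (hS : RobSl s 2) {σ c : ℝ} (h0 : 0 ≤ c) (h1 : c < 1) (hlam : lamI s 2 c = c + σ)
    (hry : σ = 0 ∨ RYl s 0) {T : Sp} (p : Pj T S) (E : ∀ k, (T.F k).Ω → Prop) (hE : 0 < ul (T.pr E)) :
    HH (SJ 1 {0, 1}) (s.im p E hE) c (c + σ) := by
  rcases hry with h | h
  · rw [h, add_zero]
    exact HH_iff_la.mpr (la_ge_self h0 h1.le)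
  · have h2 := lamI_ry (s := s.im p E hE) (z := 2) (j := 1) (Pool.Agent.Helper3.H3.RobSl_im hS p E hE)
      (Pool.Agent.Helper3.H3.RYl_im h p E hE) h0 h1
    rw [hs.lamI_im p E hE, hlam] at h2
    rw [h2]
    exact HH_la (s := s.im p E hE) (i := 1) (J := {0, 1}) c

theorem full4 (hs : Sel4 G Φ D g s) (hst : ST 1 2) {σ c : ℝ} (h0 : 0 ≤ c) (h1 : c < 1)
    (hlam : lamI s 2 c = c + σ) (hry : σ = 0 ∨ RYl s 0) {T : Sp} (p : Pj T S) (E : ∀ k, (T.F k).Ω → Prop)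
    (hE : 0 < ul (T.pr E)) (l : Lab (Sp.im p E)) (hk : IsKap (s.im p E hE) c l) :
    (1 - c) + (1 - (c + σ)) ≤
      h (up1 l (TR.dg (TR.cor (s.im p E hE).P 0) 1 ⊔ TR.dg (TR.cor (s.im p E hE).P 1) 1)) (up1 l (s.im p E hE).T) := by
  have hv : Pool.Agent.Helper52.SL.lvolP (s.im p E hE) (prI (s.im p E hE) 2) 1 c ≤ 2 * (c + lamI (s.im p E hE) 2 c) := by
    have h01 : ∀ σ, psi (Pool.Agent.Helper52.SL.GDP (selM 2) 1) (s.im p E hE) c σ = 0 ∨
        psi (Pool.Agent.Helper52.SL.GDP (selM 2) 1) (s.im p E hE) c σ = 1 :=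
      fun σ => (hs.im p E hE).robL.zero_one 2 c σ
    rcases hry with h | h
    · refine vol_triv h01 ?_
      rw [hs.lamI_im p E hE, hlam, h, add_zero]
    · exact vol_ry (y := 0) (by decide) (Pool.Agent.Helper3.H3.RYl_im h p E hE) h0 h1 h01
  have h2 := Pool.Agent.Helper83.NSA.fulf (Pool.Agent.Helper83.NSA.fac_prI (s.im p E hE) 2) (D := 1) le_rfl hst
    (σ := 1) h0 h1 le_rfl hk
  rw [Pool.Agent.Helper3.H3.prI_P_dg (s.im p E hE) 2 1] at h2
  rw [hs.lamI_im p E hE, hlam] at hv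
  rw [lvolP_both] at h2
  have h3 : (2 : Fin 3).succAbove (1 - 1) = 0 := rfl
  have h4 : (2 : Fin 3).succAbove (1 : Fin 2) = 1 := rfl
  rw [h3, h4] at h2
  push_cast at h2
  linarith

/-- THE DATA OF LEVEL 1 -/
theorem levA_of (hs : Sel4 G Φ D g s) (hH : RobH s) (hS : RobSl s 2) (hD : 1 ≤ D) (hst : ST 1 2) (hi : ZDir s D 2)
    (h1 : c0 s D < 1) {u σ : ℝ} (hu : 0 ≤ u) (hσ : 0 ≤ σ)
    (hlam : ∀ c, u < c → c < c0 s D → lamI s 2 c = c + σ) (hη1 : ∀ c, u < c → c < c0 s D → eta s D c < 1)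
    (hlt : ∀ c, u < c → c < c0 s D → lamI s 2 (c0 s D) < eta s D c) (hry : σ = 0 ∨ RYl s 0) {c : ℝ} (huc : u < c)
    (hc : c < c0 s D) : LevA s c (min (c - u) (c0 s D - c)) (fun c' => c' + σ) (eta s D) := by
  have hm : ∀ c', |c' - c| < min (c - u) (c0 s D - c) → u < c' ∧ c' < c0 s D := by
    intro c' h
    rw [lt_min_iff, abs_lt, abs_lt] at h
    constructor <;> linarith [h.1.1, h.2.2]
  refine ⟨hs.rob.p, ?_, ?_, ?_, ?_⟩
  · intro T p E hE c' hc'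
    obtain ⟨a1, a2⟩ := hm c' hc'
    exact hR4 hs hS (hu.trans a1.le) (a2.trans h1) (hlam c' a1 a2) hry p E hE
  · intro T p E hE c' hc' l hl
    obtain ⟨a1, a2⟩ := hm c' hc'
    have e0 : eta (s.im p E hE) D c' = eta s D c' := hH.eta_im p E hE D c'
    have e1 := hs.c0_im p E hE
    have e2 := hs.lamI_im p E hE 2 (c0 s D)
    have hge : c0 s D ≤ lamI s 2 (c0 s D) :=
      Pool.Agent.Helper3.SG.lamP_ge_self (Pool.Agent.Helper3.SG.Fac.pr s _ _ _ _) le_rfl (Sel4.c0_nonneg hD s) h1.le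
    have h3 := hul4 (hs.im p E hE) (hH.im p E hE) hD hst ((hs.ZDir_im p E hE 2).mpr hi) (by rw [e1]; exact h1)
      (c := c') (hu.trans a1.le) (by rw [e1]; exact a2.le) (by rw [e0]; exact hη1 c' a1 a2)
      (by rw [e0]; linarith [hlt c' a1 a2]) (by rw [e0, e1, e2]; exact hlt c' a1 a2) l hl
    rw [e0] at h3
    exact h3
  · intro T p E hE c' hc' l hl
    obtain ⟨a1, a2⟩ := hm c' hc'
    exact full4 hs hst (hu.trans a1.le) (a2.trans h1) (hlam c' a1 a2) hry p E hE l hl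
  · intro c' hc'
    obtain ⟨a1, a2⟩ := hm c' hc'
    refine ⟨by show c' ≤ c' + σ; linarith, ?_⟩
    show c' + σ ≤ 1
    rw [← hlam c' a1 a2]
    exact Pool.Agent.Helper3.SG.lamP_le_one le_rfl _

/-- **FIELD `hD`** of the corner of case A -/
theorem fun_of (hs : Sel4 G Φ D g s) (hH : RobH s) (hS : RobSl s 2) (hD : 1 ≤ D) (hst : ST 1 2) (hi : ZDir s D 2)
    (h1 : c0 s D < 1) {u σ : ℝ} (hu : 0 ≤ u) (hσ : 0 ≤ σ)
    (hlam : ∀ c, u < c → c < c0 s D → lamI s 2 c = c + σ) (hη1 : ∀ c, u < c → c < c0 s D → eta s D c < 1)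
    (hlt : ∀ c, u < c → c < c0 s D → lamI s 2 (c0 s D) < eta s D c) (hry : σ = 0 ∨ RYl s 0) {c w y' : ℝ}
    (huc : u < c) (hc : c < c0 s D) (hw : 1 ≤ w) (hη : HasDerivAt (eta s D) w c) (hy' : y' ≤ 3 - g / 2)
    (hy : HasDerivAt (s.F 0) y' (eta s D c)) : ∃ ρ : ℝ, 0 < ρ ∧ ρ ≤ 1 ∧ ∀ ε : ℝ, 0 < ε → ∃ e0 : ℝ, 0 < e0 ∧
      ∀ e : ℝ, 0 < e → e ≤ e0 → ∀ P : ℝ, FUn s D σ c e ρ ε P := by
  have hL := levA_of hs hH hS hD hst hi h1 hu hσ hlam hη1 hlt hry huc hc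
  have hd : 0 < min (c - u) (c0 s D - c) := lt_min (by linarith) (by linarith)
  have hmono : lamI s 2 c ≤ lamI s 2 (c0 s D) := Pool.Agent.Helper3.SG.lamP_mono le_rfl hc.le
  have hcl : c + σ < eta s D c := by
    rw [← hlam c huc hc]
    exact hmono.trans_lt (hlt c huc hc)
  have hσ' : HasDerivAt (fun x : ℝ => x + σ) 1 c := (hasDerivAt_id c).add_const σ
  have hη0 : 0 < eta s D c := by linarith
  have hg := hs.g0
  refine ⟨min (g / 2) 1, lt_min (by linarith) one_pos, min_le_right _ _, fun ε hε => ?_⟩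
  obtain ⟨e0, he0, H⟩ := bx_un2 hL.nch hd hη hw hσ' (Or.inl hcl) hy hη0 (hη1 c huc hc) (A := 1) zero_le_one hε
  refine ⟨e0, he0, fun e he hee P => ?_⟩
  intro q B i0 _ he' T pr E hE _ a b' ha hab hb
  have h2 := H e he' hee q (fun i => q i + σ) q B.L B.b i0 T pr E hE a b' (by linarith) hab hb
  refine h2.trans ?_
  have h3 : min (g / 2) 1 ≤ g / 2 := min_le_left _ _
  have h4 : y' - 2 ≤ 1 - min (g / 2) 1 := by linarith
  have h5 : 0 ≤ b' - a := by linarith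
  have h6 := mul_le_mul_of_nonneg_right h4 h5
  linarith

end

end Pool.Agent.Helper11.UA
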