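import Pool.Agent.Helper30.UNS.Sys

/-! UNSATURATED TOP COORDINATE in case A: lemma NC with the coordinate `z` known from the other coordinates at ONE level
(the thickness of the window); windows near a typical window; the rates on all events of all extensions of the space over
a label. -/

set_option autoImplicit false

namespace Pool.Agent.Helper11.UA

open Finset Filter Topology Pool.Agent.Helper69.RK Pool.Agent.Helper31.EC Pool.Agent.Helper31.EC.Sp
open Pool.Agent.Helper40.EL Pool.Agent.Helper52.KP Pool.Agent.Helper42.NS Pool.Agent.Helper91.GR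
open Pool.Agent.Helper80.HCI Pool.Agent.Helper30.UNS

noncomputable section

variable {S : Sp} {m N : ℕ}

/-- LEMMA NC, the coordinate `z` known at the level `r` -/
theorem nc_le2 (C : Cd m N) {s : Sys S m} {c lam r r' : ℝ} (hcl : c ≤ lam) (h1 : lam ≤ 1)
    (hrr : r ≤ r') (hr' : r' ≤ 1) {l : Lab S} (hl : IsKap s c l)
    {w : ∀ k, (l k).T.Ω → Cf (m + 1)} (hv : up1 l (TR.dg (pc s C.z.succ) r) ≤ up1 l (C.M s r) ⊔ up1 l s.T)
    (hw : Sht s C.R C.JR lam l w)
    (hfull : N * (1 - c) + (1 - lam) ≤ h (up1 l (C.M s 1)) (up1 l s.T)) :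
    h (TR.dg (pc s C.z.succ) r') (C.M s 1 ⊔ (TR.dg (pc s C.z.succ) r ⊔ s.T)) ≤
      s.F 0 r' - s.F 0 r - (N + 1) * (r' - r) + (N + 1) * max (lam - r) 0 := by
  have hN : (0 : ℝ) ≤ N := Nat.cast_nonneg N
  have hc1 : c ≤ 1 := hcl.trans h1
  have hr1 : r ≤ 1 := hrr.trans hr'
  obtain ⟨zc, hzc⟩ : ∃ zc : ℝ → S.L, zc = fun u => TR.dg (pc s C.z.succ) u := ⟨_, rfl⟩
  obtain ⟨Rc, hRc⟩ : ∃ Rc : ℝ → S.L, Rc = fun u => TR.dg (pc s C.R.succ) u := ⟨_, rfl⟩
  have ez : ∀ u, TR.dg (pc s C.z.succ) u = zc u := fun u => by rw [hzc]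
  have eR : ∀ u, TR.dg (pc s C.R.succ) u = Rc u := fun u => by rw [hRc]
  have hzm : ∀ {u u' : ℝ}, u ≤ u' → zc u ≤ zc u' := fun hu => by rw [hzc]; exact TR.dg_mono _ hu
  have hRm : ∀ {u u' : ℝ}, u ≤ u' → Rc u ≤ Rc u' := fun hu => by rw [hRc]; exact TR.dg_mono _ hu
  have hT : ∀ u, u ≤ 1 → s.t.dg u ≤ s.T := fun u hu => s.t.dg_mono hu
  have hMr : ∀ u, C.M s u = (C.fl s).dg u ⊔ Rc u := fun u => by rw [← eR]; rfl
  rw [ez, ez]
  -- digits of the sheets
  have hzM : up1 l (zc r) ≤ up1 l (C.M s r) ⊔ up1 l s.T := by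
    rw [← ez]
    exact hv
  obtain ⟨b, hb⟩ : ∃ b, b = min lam r := ⟨_, rfl⟩
  have hbl : b ≤ lam := by rw [hb]; exact min_le_left _ _
  have hbr : b ≤ r := by rw [hb]; exact min_le_right _ _
  have hbm : lam - b = max (lam - r) 0 := by
    rw [hb]
    rcases le_total lam r with hh | hh
    · rw [min_eq_left hh, max_eq_right (by linarith), sub_self]
    · rw [min_eq_right hh, max_eq_left (by linarith)]
  have hRf : up1 l (Rc b) ≤ up1 l ((C.fl s).dg b) ⊔ up1 l s.T := by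
    rw [← eR]
    refine hw.dg_le hbl fun j hj => ?_
    rw [← up1_sup]
    apply up1_mono
    exact (C.sel_le s b j hj).trans (sup_le_sup_left (hT b (hbl.trans h1)) _)
  have hcb : c - r ≤ lam - b := by
    rw [hbm]
    exact (sub_le_sub_right hcl r).trans (le_max_left _ _)
  have hb0 : 0 ≤ lam - b := sub_nonneg.2 hbl
  have f2 : h (up1 l (C.M s r)) (up1 l s.T) ≤ N * (r - c) + N * (lam - b) + (r - b) := by
    have e1 : h (up1 l (C.M s r)) (up1 l s.T) = h (up1 l ((C.fl s).dg r)) (up1 l s.T) +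
        h (up1 l (Rc r)) (up1 l ((C.fl s).dg r) ⊔ up1 l s.T) := by
      rw [hMr, up1_sup, h_chain]
    have e2 : h (up1 l ((C.fl s).dg r)) (up1 l s.T) ≤ N * (r - c) + N * (lam - b) := by
      obtain ⟨c', hc'⟩ : ∃ c', c' = min c r := ⟨_, rfl⟩
      have hcc : c' ≤ c := by rw [hc']; exact min_le_left _ _
      have hcr' : c' ≤ r := by rw [hc']; exact min_le_right _ _
      have hcc' : c - c' ≤ lam - b := by
        rw [hc']
        rcases le_total c r with hh | hh
        · rw [min_eq_left hh, sub_self]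
          exact hb0
        · rw [min_eq_right hh]
          exact hcb
      have e3 : up1 l ((C.fl s).dg c) = ⊥ := by
        apply le_antisymm _ bot_le
        rw [← hl.P_bot hc1]
        have e4 : (C.fl s).dg c ≤ s.P.dg c ⊔ s.t.dg c := le_sup_left.trans (C.M_t_le s)
        have e5 := up1_mono l e4
        rw [up1_sup, hl.t_bot hc1, sup_bot_eq] at e5
        exact e5
      have e6 : up1 l ((C.fl s).dg c') = ⊥ := le_antisymm (e3 ▸ up1_mono l ((C.fl s).dg_mono hcc)) bot_le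
      calc h (up1 l ((C.fl s).dg r)) (up1 l s.T) ≤ H (up1 l ((C.fl s).dg r)) := h_le_H _ _
        _ = h (up1 l ((C.fl s).dg r)) (up1 l ((C.fl s).dg c')) := by rw [e6, h_bot]
        _ ≤ h ((C.fl s).dg r) ((C.fl s).dg c') := h_up1_le l _ _
        _ ≤ N * (r - c') := (C.fl s).h_dg_dg hcr'
        _ ≤ N * (r - c) + N * (lam - b) := by
          have e7 := mul_le_mul_of_nonneg_left hcc' hN
          linarith only [e7]
    have e3 : h (up1 l (Rc r)) (up1 l ((C.fl s).dg r) ⊔ up1 l s.T) ≤ r - b := by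
      have e4 : up1 l (Rc b) ≤ up1 l ((C.fl s).dg r) ⊔ up1 l s.T :=
        hRf.trans (sup_le_sup_right (up1_mono l ((C.fl s).dg_mono hbr)) _)
      calc h (up1 l (Rc r)) (up1 l ((C.fl s).dg r) ⊔ up1 l s.T) ≤ h (up1 l (Rc r)) (up1 l (Rc b)) := h_anti e4
        _ ≤ h (Rc r) (Rc b) := h_up1_le l _ _
        _ ≤ (1 : ℕ) * (r - b) := by rw [hRc]; exact VV.h_dg_dg _ hbr
        _ = r - b := by push_cast; ring
    linarith
  have f3 : ((N : ℝ) + 1) * (1 - r) - (N + 1) * max (lam - r) 0 ≤ h (C.M s 1) (C.M s r ⊔ zc r ⊔ s.T) := by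
    have e1 : h (up1 l (C.M s 1)) (up1 l (C.M s r ⊔ zc r ⊔ s.T)) ≤ h (C.M s 1) (C.M s r ⊔ zc r ⊔ s.T) := h_up1_le l _ _
    have e2 : up1 l (C.M s r ⊔ zc r ⊔ s.T) = up1 l (C.M s r) ⊔ up1 l s.T := by
      rw [up1_sup, up1_sup]
      apply le_antisymm
      · exact sup_le (sup_le le_sup_left hzM) le_sup_right
      · exact sup_le (le_sup_left.trans le_sup_left) le_sup_right
    have e3 : h (up1 l (C.M s 1)) (up1 l s.T) = h (up1 l (C.M s r)) (up1 l s.T) +
        h (up1 l (C.M s 1)) (up1 l (C.M s r) ⊔ up1 l s.T) := by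
      rw [← h_chain, sup_eq_right.mpr (up1_mono l (C.M_mono s hr1))]
    rw [e2] at e1
    rw [← hbm]
    linarith only [e1, e3, hfull, f2]
  -- the deficit
  have f4 : h (C.M s r' ⊔ zc r') (C.M s r ⊔ zc r ⊔ s.T) ≤ s.F 0 r' - s.F 0 r := by
    have e1 : ∀ u, u ≤ 1 → s.F 0 u = h (C.M s u ⊔ zc u) s.T := by
      intro u hu
      have e2 : s.F 0 u = h (s.x.dg 0 ⊔ s.P.dg u) s.T := rfl
      rw [e2, s.x.dg_nonpos le_rfl, bot_sup_eq, ← ez]
      apply h_congr_left
      · have := (C.P_eq s u).le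
        exact (le_sup_left.trans this).trans (sup_le_sup_left (hT u hu) _)
      · have := (C.P_eq s u).ge
        exact (le_sup_left.trans this).trans (sup_le_sup_left (hT u hu) _)
    rw [e1 r' hr', e1 r hr1]
    have e2 : h (C.M s r' ⊔ zc r') s.T = h (C.M s r ⊔ zc r) s.T +
        h (C.M s r' ⊔ zc r') (C.M s r ⊔ zc r ⊔ s.T) := by
      rw [← h_chain]
      congr 1
      exact (sup_eq_right.mpr (sup_le_sup (C.M_mono s hrr) (hzm hrr))).symm
    linarith
  have f5 : h (C.M s 1) (C.M s r' ⊔ s.T) ≤ (N + 1) * (1 - r') := by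
    have e1 : h (C.M s 1) (C.M s r') ≤ (N + 1) * (1 - r') := by
      rw [hMr, hMr]
      have e2 := h_sup_le ((C.fl s).dg 1) (Rc 1) ((C.fl s).dg r' ⊔ Rc r')
      have e3 : h ((C.fl s).dg 1) ((C.fl s).dg r' ⊔ Rc r') ≤ N * (1 - r') :=
        (h_anti le_sup_left).trans ((C.fl s).h_dg_dg hr')
      have e4 : h (Rc 1) ((C.fl s).dg r' ⊔ Rc r') ≤ (1 : ℕ) * (1 - r') := by
        refine (h_anti le_sup_right).trans ?_
        rw [hRc]
        exact VV.h_dg_dg _ hr'
      push_cast at e4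
      linarith
    exact (h_anti le_sup_left).trans e1
  have f6 := Pool.Agent.Helper51.SW.nc_deficit (W := s.T) (M := C.M s 1) (Ms := C.M s r') (Mr := C.M s r) (zs := zc r')
    (zr := zc r) (C.M_mono s hr') (C.M_mono s hrr) f4 f3
  linarith


/-- what NC needs at the window `c`, the coordinate `z` only at the level `eta` -/
def WN2 (C : Cd m N) {S : Sp} (s : Sys S m) (c lam eta : ℝ) : Prop :=
  ∃ (l : Lab S) (w : ∀ k, (l k).T.Ω → Cf (m + 1)), IsKap s c l ∧
    up1 l (TR.dg (pc s C.z.succ) eta) ≤ up1 l (C.M s eta) ⊔ up1 l s.T ∧ Sht s C.R C.JR lam l w ∧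
    N * (1 - c) + (1 - lam) ≤ h (up1 l (C.M s 1)) (up1 l s.T)

section ev

variable {l : Lab S} {e : ℝ} {he : 0 < e} {W : Sp} {p : Pj W (l.ovr e he)} {E : ∀ k, (W.F k).Ω → Prop}
  (hE : 0 < ul (W.pr E)) (C : Cd m N) (s : Sys S m)

/-- LEMMA NC on events of extensions of the space over a label -/
theorem nc_ev2 {c lam eta r' : ℝ} (hcl : c ≤ lam) (h1 : lam ≤ 1)
    (hrr : eta ≤ r') (hr' : r' ≤ 1) (hW : WN2 C (sysE l p E hE s) c lam eta) :
    h (restL E hE (p.map (l.upL e he (TR.dg (Pool.Agent.Helper91.GR.pc s C.z.succ) r'))))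
      (restL E hE (p.map (l.upL e he (C.M s 1 ⊔ (TR.dg (Pool.Agent.Helper91.GR.pc s C.z.succ) eta ⊔ s.T))))) ≤
      ((sysE l p E hE s).F 0 r' - (sysE l p E hE s).F 0 eta - (N + 1) * (r' - eta) +
        (N + 1) * max (lam - eta) 0) / e := by
  obtain ⟨l', w, hl, hv, hw, hf⟩ := hW
  refine ((ImR.pc hE s C.z.succ r').h_le hE
    ((ImR.M hE C s 1).sup ((ImR.pc hE s C.z.succ eta).sup (ImR.T hE s)))).trans ?_
  exact div_le_div_of_nonneg_right (nc_le2 C hcl h1 hrr hr' hl hv hw hf) he.le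

end ev

/-- WINDOWS: at every level near `η c` there is a window near `c` whose thickness is this level, up to a small error,
and whose slab is not deeper than the thickness -/
theorem exists_win2 {η lam : ℝ → ℝ} {c w w1 : ℝ} (hη : HasDerivAt η w c) (hw : 1 ≤ w) (hl : HasDerivAt lam w1 c)
    (hor : lam c < η c ∨ (lam c = η c ∧ w1 = w)) {A ε d : ℝ} (hA : 0 ≤ A) (hε : 0 < ε) (hd : 0 < d) :
    ∃ e0 : ℝ, 0 < e0 ∧ ∀ e : ℝ, 0 < e → e ≤ e0 → ∀ u : ℝ, |u| ≤ A →
      ∃ c' : ℝ, |c' - c| < d ∧ η c + u * e ≤ η c' ∧ η c' ≤ η c + u * e + ε * e ∧ lam c' ≤ η c' + ε * e := by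
  have hw0 : 0 < w := by linarith
  obtain ⟨δ, hδ, hδ1, hδ2⟩ : ∃ δ : ℝ, 0 < δ ∧ (w + 1) * δ ≤ ε ∧ 2 * δ ≤ ε := ⟨ε / (w + 1), by positivity, by
    rw [mul_div_cancel₀]
    linarith, by
    rw [← mul_div_assoc, div_le_iff₀ (by linarith)]
    have e1 := mul_le_mul_of_nonneg_left hw hε.le
    linarith only [e1]⟩
  obtain ⟨B, hB⟩ : ∃ B : ℝ, B = A + δ := ⟨_, rfl⟩
  have hB0 : 0 < B := by rw [hB]; positivity
  obtain ⟨e1, he1, h1⟩ := incr_e hη hB0.le hδ
  obtain ⟨e2, he2, h2⟩ := incr_e hl hB0.le hδ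
  obtain ⟨e4, he4, h4⟩ : ∃ e4 : ℝ, 0 < e4 ∧ B * e4 < d := ⟨d / (2 * B), by positivity, by
    rw [← mul_div_assoc, div_lt_iff₀ (by positivity)]
    have e1 := mul_pos hB0 hd
    linarith only [e1]⟩
  obtain ⟨e3, he3, h3⟩ : ∃ e3 : ℝ, 0 < e3 ∧ (lam c < η c → (|w1| * B + δ + w * B + δ) * e3 ≤ η c - lam c) := by
    rcases hor with hor | ⟨hor, -⟩
    · have hp : 0 < |w1| * B + δ + w * B + δ := by positivity
      refine ⟨(η c - lam c) / (|w1| * B + δ + w * B + δ), by
        have : 0 < η c - lam c := by linarith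
        positivity, fun _ => ?_⟩
      rw [mul_div_cancel₀ _ hp.ne']
    · exact ⟨1, one_pos, fun hh => absurd hh (by rw [hor]; exact lt_irrefl _)⟩
  refine ⟨min (min e1 e2) (min e3 e4), by positivity, fun e he hee u hu => ?_⟩
  have k1 : e ≤ e1 := hee.trans ((min_le_left _ _).trans (min_le_left _ _))
  have k2 : e ≤ e2 := hee.trans ((min_le_left _ _).trans (min_le_right _ _))
  have k3 : e ≤ e3 := hee.trans ((min_le_right _ _).trans (min_le_left _ _))
  have k4 : e ≤ e4 := hee.trans ((min_le_right _ _).trans (min_le_right _ _))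
  obtain ⟨s, hs0⟩ : ∃ s : ℝ, s = u / w + δ := ⟨_, rfl⟩
  have hs : |s| ≤ B := by
    rw [hs0]
    refine (abs_add_le _ _).trans ?_
    rw [abs_div, abs_of_pos hw0, abs_of_pos hδ, hB]
    have : |u| / w ≤ |u| := div_le_self (abs_nonneg _) hw
    linarith
  have g1 := abs_le.1 (h1 e he k1 s hs)
  have g2 := abs_le.1 (h2 e he k2 s hs)
  have e5 : w * s * e = u * e + w * δ * e := by
    rw [hs0]
    field_simp
  rw [e5] at g1
  have hwδ : δ * e ≤ w * δ * e := by
    have : δ * e * 1 ≤ δ * e * w := mul_le_mul_of_nonneg_left hw (by positivity)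
    linarith
  have hδe : (w + 1) * δ * e ≤ ε * e := mul_le_mul_of_nonneg_right hδ1 he.le
  have hδe2 : 2 * δ * e ≤ ε * e := mul_le_mul_of_nonneg_right hδ2 he.le
  refine ⟨c + s * e, ?_, ?_, ?_, ?_⟩
  · rw [add_sub_cancel_left, abs_mul, abs_of_pos he]
    have a1 : |s| * e ≤ B * e4 := mul_le_mul hs k4 he.le hB0.le
    linarith
  · linarith [g1.1]
  · linarith [g1.2]
  · rcases hor with hor | ⟨hor, hww⟩
    · have h3' := h3 hor
      have a1 : (|w1| * B + δ + w * B + δ) * e ≤ (|w1| * B + δ + w * B + δ) * e3 :=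
        mul_le_mul_of_nonneg_left k3 (by positivity)
      have hse : |s| * e ≤ B * e := mul_le_mul_of_nonneg_right hs he.le
      have a2 : w1 * s * e ≤ |w1| * B * e := by
        have b1 : w1 * s * e ≤ |w1 * s * e| := le_abs_self _
        rw [abs_mul, abs_mul, abs_of_pos he] at b1
        have b2 : |w1| * |s| * e ≤ |w1| * B * e := by
          have := mul_le_mul_of_nonneg_left hse (abs_nonneg w1)
          linarith
        linarith
      have a3 : -(w * B * e) ≤ w * s * e := by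
        have b1 : -|s| ≤ s := neg_abs_le s
        have b2 : -(|s| * e) ≤ s * e := by
          have b4 := mul_le_mul_of_nonneg_right b1 he.le
          linarith only [b4]
        have b3 := mul_le_mul_of_nonneg_left (show -(B * e) ≤ s * e by linarith) hw0.le
        linarith
      have a4 : 0 < ε * e := by positivity
      rw [e5] at a3
      linarith only [g2.2, g1.1, a1, h3', a2, a3, a4]
    · subst hww
      rw [e5] at g2
      rw [hor] at g2
      linarith [g2.2, g1.1]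

/-- input of NC on all events of all extensions, at the windows near `c` -/
structure NcH2 (C : Cd m N) (s : Sys S m) (c d : ℝ) (lam eta y : ℝ → ℝ) : Prop where
  yr : ∀ (T : Sp) (p : Pj T S) (E : ∀ k, (T.F k).Ω → Prop) (hE : 0 < ul (T.pr E)) (u : ℝ), 0 ≤ u → u ≤ 1 →
    (s.im p E hE).F 0 u = y u
  wn : ∀ (T : Sp) (p : Pj T S) (E : ∀ k, (T.F k).Ω → Prop) (hE : 0 < ul (T.pr E)) (c' : ℝ), |c' - c| < d →
    WN2 C (s.im p E hE) c' (lam c') (eta c')
  ql : ∀ c' : ℝ, |c' - c| < d → c' ≤ lam c' ∧ lam c' ≤ 1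

/-- UNSATURATED TOP COORDINATE, level 1 -/
theorem uns_sys2 (C : Cd m N) {s : Sys S m} {c d w w1 y' : ℝ} {lam eta y : ℝ → ℝ} (H : NcH2 C s c d lam eta y)
    (hd : 0 < d) (hη : HasDerivAt eta w c) (hw : 1 ≤ w) (hl : HasDerivAt lam w1 c)
    (hor : lam c < eta c ∨ (lam c = eta c ∧ w1 = w)) (hy : HasDerivAt y y' (eta c)) (h0 : 0 < eta c) (h1 : eta c < 1)
    {A ε : ℝ} (hA : 0 ≤ A) (hε : 0 < ε) :
    ∃ e0 : ℝ, 0 < e0 ∧ ∀ (e : ℝ) (he : 0 < e), e ≤ e0 → ∀ (l : Lab S) (W : Sp) (p : Pj W (l.ovr e he))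
      (E : ∀ k, (W.F k).Ω → Prop) (hE : 0 < ul (W.pr E)) (u v : ℝ), -A ≤ u → u ≤ v → v ≤ A →
      h (restL E hE (p.map (l.upL e he (TR.dg (pc s C.z.succ) (eta c + v * e)))))
        (restL E hE (p.map (l.upL e he (C.M s 1 ⊔ (TR.dg (pc s C.z.succ) (eta c + u * e) ⊔ s.T))))) ≤
        (y' - (N + 1)) * (v - u) + ε := by
  obtain ⟨K, hK⟩ : ∃ K : ℝ, K = |y' - (N + 1)| := ⟨_, rfl⟩
  have hK0 : 0 ≤ K := by rw [hK]; exact abs_nonneg _
  have hK1 : y' - (N + 1) ≤ K := by rw [hK]; exact le_abs_self _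
  have hK2 : -(y' - (N + 1)) ≤ K := by rw [hK]; exact neg_le_abs _
  obtain ⟨ε', hε', hε2⟩ : ∃ ε' : ℝ, 0 < ε' ∧ (N + 4 + K) * ε' ≤ ε := ⟨ε / (N + 4 + K), by positivity, by
    rw [mul_div_cancel₀]
    positivity⟩
  obtain ⟨e1, he1, g1⟩ := exists_win2 hη hw hl hor hA hε' hd
  obtain ⟨e2, he2, g2⟩ := incr_e hy hA hε'
  obtain ⟨e3, he3, g3, g4⟩ : ∃ e3 : ℝ, 0 < e3 ∧ A * e3 ≤ eta c ∧ A * e3 ≤ 1 - eta c := by
    refine ⟨min (eta c) (1 - eta c) / (A + 1), div_pos (lt_min h0 (by linarith)) (by positivity), ?_, ?_⟩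
    · rw [← mul_div_assoc, div_le_iff₀ (by positivity)]
      have a1 := min_le_left (eta c) (1 - eta c)
      have a2 := mul_le_mul_of_nonneg_left a1 hA
      linarith only [a2, h0]
    · rw [← mul_div_assoc, div_le_iff₀ (by positivity)]
      have a1 := min_le_right (eta c) (1 - eta c)
      have a2 := mul_le_mul_of_nonneg_left a1 hA
      linarith only [a2, h1]
  refine ⟨min (min e1 e2) e3, by positivity, fun e he hee l W p E hE u v hu huv hv => ?_⟩
  have k1 : e ≤ e1 := hee.trans ((min_le_left _ _).trans (min_le_left _ _))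
  have k2 : e ≤ e2 := hee.trans ((min_le_left _ _).trans (min_le_right _ _))
  have k3 : e ≤ e3 := hee.trans (min_le_right _ _)
  have hua : |u| ≤ A := abs_le.2 ⟨hu, huv.trans hv⟩
  have hva : |v| ≤ A := abs_le.2 ⟨hu.trans huv, hv⟩
  have hAe : A * e ≤ A * e3 := mul_le_mul_of_nonneg_left k3 hA
  have b1 : -(A * e) ≤ u * e := by
    have := mul_le_mul_of_nonneg_right hu he.le
    linarith
  have b2 : u * e ≤ v * e := mul_le_mul_of_nonneg_right huv he.le
  have b3 : v * e ≤ A * e := mul_le_mul_of_nonneg_right hv he.le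
  obtain ⟨c', hc1, hc2, hc4, hc3⟩ := g1 e he k1 u hua
  obtain ⟨q1, q2⟩ := H.ql c' hc1
  -- digits of `z`
  obtain ⟨φ, hφ⟩ : ∃ φ : S.L → (W.rest E).L, φ = fun x => restL E hE (p.map (l.upL e he x)) := ⟨_, rfl⟩
  have hφs : ∀ x y, φ (x ⊔ y) = φ x ⊔ φ y := by
    intro x y
    rw [hφ]
    show restL E hE (p.map (l.upL e he (x ⊔ y))) = _
    rw [l.upL_sup, p.map_sup, restL_sup]
  have hφm : ∀ {x y : S.L}, x ≤ y → φ x ≤ φ y := by
    intro x y hxy
    rw [hφ]
    exact restL_mono E hE (p.map_mono (l.upL_mono e he hxy))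
  have hzd : ∀ {a b : ℝ}, a ≤ b → h (φ (TR.dg (pc s C.z.succ) b)) (φ (TR.dg (pc s C.z.succ) a)) ≤ (b - a) / e := by
    intro a b hab
    have r1 := (ImR.pc (l := l) (p := p) (E := E) hE s C.z.succ b).h_le hE (ImR.pc (l := l) (p := p) (E := E) hE s C.z.succ a)
    rw [hφ]
    refine r1.trans (div_le_div_of_nonneg_right ?_ he.le)
    have r2 := VV.h_dg_dg (TR.vec fun _ : Fin 1 => pc (sysE l p E hE s) C.z.succ) hab
    rw [Nat.cast_one, one_mul] at r2
    exact r2
  have goal' : h (φ (TR.dg (pc s C.z.succ) (eta c + v * e)))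
      (φ (C.M s 1 ⊔ (TR.dg (pc s C.z.succ) (eta c + u * e) ⊔ s.T))) ≤ (y' - (N + 1)) * (v - u) + ε := by
    have hN0 : (0 : ℝ) ≤ N := Nat.cast_nonneg N
    rcases le_or_gt (eta c') (eta c + v * e) with hh | hh
    · have n1 := nc_ev2 (l := l) (he := he) (p := p) (E := E) hE C s (c := c') (lam := lam c') (eta := eta c')
        (r' := eta c + v * e) q1 q2 hh (by linarith) (H.wn (exl l p).sp (exl l p).pj E hE c' hc1)
      have z1 : (sysE l p E hE s).F 0 (eta c + v * e) = y (eta c + v * e) :=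
        H.yr (exl l p).sp (exl l p).pj E hE _ (by linarith) (by linarith)
      have z2 : (sysE l p E hE s).F 0 (eta c') = y (eta c') :=
        H.yr (exl l p).sp (exl l p).pj E hE _ (by linarith) (by linarith)
      rw [z1, z2] at n1
      -- the level of the window, in units of `e`
      obtain ⟨u', hu'⟩ : ∃ u', u' = (eta c' - eta c) / e := ⟨_, rfl⟩
      have hu'e : eta c' = eta c + u' * e := by
        rw [hu', div_mul_cancel₀ _ he.ne']
        ring
      have u1 : u ≤ u' := by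
        rw [hu', le_div_iff₀ he]
        linarith
      have u2 : u' ≤ u + ε' := by
        rw [hu', div_le_iff₀ he]
        linarith
      have u3 : u' ≤ v := by
        rw [hu', div_le_iff₀ he]
        linarith
      have hua' : |u'| ≤ A := abs_le.2 ⟨hu.trans u1, u3.trans hv⟩
      have y1 := abs_le.1 (g2 e he k2 u' hua')
      have y2 := abs_le.1 (g2 e he k2 v hva)
      rw [← hu'e] at y1
      have m1 : max (lam c' - eta c') 0 ≤ ε' * e := max_le (by linarith) (by positivity)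
      have m2 : ((N : ℝ) + 1) * max (lam c' - eta c') 0 ≤ (N + 1) * (ε' * e) :=
        mul_le_mul_of_nonneg_left m1 (by positivity)
      have n2 : (y (eta c + v * e) - y (eta c') - (N + 1) * (eta c + v * e - eta c') +
          (N + 1) * max (lam c' - eta c') 0) / e ≤ (y' - (N + 1)) * (v - u') + (N + 3) * ε' := by
        rw [div_le_iff₀ he]
        rw [hu'e] at y1 m2 ⊢
        rw [hu'e] at m1
        linarith only [y1.1, y2.2, m2]
      have n3 : (y' - (N + 1)) * (v - u') ≤ (y' - (N + 1)) * (v - u) + K * ε' := by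
        have c1 : -(y' - (N + 1)) * (u' - u) ≤ K * (u' - u) := mul_le_mul_of_nonneg_right hK2 (by linarith)
        have c2 : K * (u' - u) ≤ K * ε' := mul_le_mul_of_nonneg_left (by linarith) hK0
        linarith
      -- between the levels
      have n4 : h (φ (TR.dg (pc s C.z.succ) (eta c + v * e)))
          (φ (C.M s 1 ⊔ (TR.dg (pc s C.z.succ) (eta c + u * e) ⊔ s.T))) ≤
          h (φ (TR.dg (pc s C.z.succ) (eta c + v * e))) (φ (C.M s 1 ⊔ (TR.dg (pc s C.z.succ) (eta c') ⊔ s.T))) + ε' := by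
        obtain ⟨A0, hA0⟩ : ∃ A0, A0 = φ (C.M s 1 ⊔ (TR.dg (pc s C.z.succ) (eta c + u * e) ⊔ s.T)) := ⟨_, rfl⟩
        rw [← hA0]
        have d1 := h_triangle (φ (TR.dg (pc s C.z.succ) (eta c + v * e))) (φ (TR.dg (pc s C.z.succ) (eta c'))) A0
        have d2 : φ (C.M s 1 ⊔ (TR.dg (pc s C.z.succ) (eta c') ⊔ s.T)) ≤ φ (TR.dg (pc s C.z.succ) (eta c')) ⊔ A0 := by
          rw [hA0, hφs, hφs, hφs, hφs]
          exact sup_le (le_sup_left.trans le_sup_right) (sup_le le_sup_left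
            ((le_sup_right.trans le_sup_right).trans le_sup_right))
        have d3 := h_anti (A := φ (TR.dg (pc s C.z.succ) (eta c + v * e))) d2
        have d4 : h (φ (TR.dg (pc s C.z.succ) (eta c'))) A0 ≤ ε' := by
          have d5 : φ (TR.dg (pc s C.z.succ) (eta c + u * e)) ≤ A0 := by
            rw [hA0]
            exact hφm (le_sup_left.trans le_sup_right)
          refine (h_anti d5).trans ((hzd hc2).trans ?_)
          rw [div_le_iff₀ he]
          linarith
        linarith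
      have n1' : h (φ (TR.dg (pc s C.z.succ) (eta c + v * e)))
          (φ (C.M s 1 ⊔ (TR.dg (pc s C.z.succ) (eta c') ⊔ s.T))) ≤
          (y (eta c + v * e) - y (eta c') - (N + 1) * (eta c + v * e - eta c') +
          (N + 1) * max (lam c' - eta c') 0) / e := by
        rw [hφ]
        exact n1
      linarith
    · have d1 : h (φ (TR.dg (pc s C.z.succ) (eta c + v * e)))
          (φ (C.M s 1 ⊔ (TR.dg (pc s C.z.succ) (eta c + u * e) ⊔ s.T))) ≤ v - u := by
        have d2 : φ (TR.dg (pc s C.z.succ) (eta c + u * e)) ≤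
            φ (C.M s 1 ⊔ (TR.dg (pc s C.z.succ) (eta c + u * e) ⊔ s.T)) := hφm (le_sup_left.trans le_sup_right)
        refine (h_anti d2).trans ((hzd (show eta c + u * e ≤ eta c + v * e by linarith)).trans ?_)
        rw [div_le_iff₀ he]
        linarith
      have d3 : v - u ≤ ε' := by
        have : (v - u) * e ≤ ε' * e := by linarith
        exact le_of_mul_le_mul_right this he
      have d4 : -(y' - (N + 1)) * (v - u) ≤ K * (v - u) := mul_le_mul_of_nonneg_right hK2 (by linarith)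
      have d5 : K * (v - u) ≤ K * ε' := mul_le_mul_of_nonneg_left d3 hK0
      have d6 : 0 ≤ (N : ℝ) * ε' := mul_nonneg hN0 hε'.le
      linarith only [d1, d3, d4, d5, d6, hε2, hε']
  rw [hφ] at goal'
  exact goal'

end

end Pool.Agent.Helper11.UA
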